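import Pool.Agent.Lib.MP_9fae2f_co.Fan

set_option autoImplicit false

/-!
# A large fan has many lengths of induced cycles
-/

namespace Pool.Agent.Lib.MP_9fae2f_co

open SimpleGraph

universe u

/-- The numerical core: the level sums of all pairs of legs in `Y` are determined by one length `L`
of induced cycles. -/
lemma Fan.card_bound {V : Type u} {G : SimpleGraph V} {M : ℕ} (F : Fan G M 8) (S : Finset ℕ)
    (l : ℕ) (hSl : S.card ≤ l) (hS : ∀ N, HasInducedCycle G N → N ∈ S) (T : ℕ → ℕ → ℕ)
    (hT : ∀ a b, a < b → b < M → F.IsT a b (T a b)) (Y : Finset ℕ) (hY : ∀ a ∈ Y, a < M) (L : ℕ)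
    (hL : ∀ a ∈ Y, ∀ b ∈ Y, a < b → T a b + L + F.r a = F.h a + F.h b + 3 + F.l b) :
    Y.card ≤ 2 * l + 3 := by
  classical
  by_contra hcon
  push Not at hcon
  have hYne : Y.Nonempty := by rw [← Finset.card_pos]; omega
  set a := Y.min' hYne with ha
  have haY : a ∈ Y := Finset.min'_mem _ _
  have hY1c : (Y.erase a).card = Y.card - 1 := Finset.card_erase_of_mem haY
  have hY1ne : (Y.erase a).Nonempty := by rw [← Finset.card_pos]; omega
  set b := (Y.erase a).min' hY1ne with hb
  have hbY1 : b ∈ Y.erase a := Finset.min'_mem _ _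
  have hbY : b ∈ Y := Finset.mem_of_mem_erase hbY1
  have hab : a < b :=
    lt_of_le_of_ne (Finset.min'_le _ _ hbY) (Ne.symm (Finset.mem_erase.1 hbY1).1)
  set Y2 := (Y.erase a).erase b with hY2
  have hY2c : Y2.card = (Y.erase a).card - 1 := Finset.card_erase_of_mem hbY1
  have hmem : ∀ c ∈ Y2, c ∈ Y ∧ b < c := by
    intro c hc
    have h1 := Finset.mem_erase.1 hc
    exact ⟨Finset.mem_of_mem_erase h1.2,
      lt_of_le_of_ne (Finset.min'_le _ _ h1.2) (Ne.symm h1.1)⟩
  have hLab := hL a haY b hbY hab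
  have hstepA := F.stepA a b hab (hY b hbY)
  -- three kinds of third legs
  set C1 := Y2.filter (fun c => T a b + 3 ≤ T b c) with hC1
  set C2 := Y2.filter (fun c => T b c + 3 ≤ T a b) with hC2
  set C3 := Y2.filter (fun c => T b c < T a b + 3 ∧ T a b < T b c + 3) with hC3
  have hsub : Y2 ⊆ C1 ∪ (C2 ∪ C3) := by
    intro c hc
    rw [Finset.mem_union, Finset.mem_union, hC1, hC2, hC3, Finset.mem_filter, Finset.mem_filter,
      Finset.mem_filter]
    by_cases h1 : T a b + 3 ≤ T b c
    · exact Or.inl ⟨hc, h1⟩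
    · by_cases h2 : T b c + 3 ≤ T a b
      · exact Or.inr (Or.inl ⟨hc, h2⟩)
      · exact Or.inr (Or.inr ⟨hc, by omega, by omega⟩)
  have hcard := (Finset.card_le_card hsub).trans ((Finset.card_union_le _ _).trans
    (Nat.add_le_add_left (Finset.card_union_le _ _) _))
  -- facts for a third leg
  have hfacts : ∀ c ∈ Y2, b < c ∧ c < M ∧ T b c + L + F.r b = F.h b + F.h c + 3 + F.l c ∧
      T b c + 2 ≤ T a c ∧ T a b + 2 ≤ T a c ∧ F.IsT a b (T a b) ∧ F.IsT a c (T a c) ∧
      F.IsT b c (T b c) := by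
    intro c hc
    obtain ⟨hcY, hbc⟩ := hmem c hc
    have hcM := hY c hcY
    have h1 := hL b hbY c hcY hbc
    have h2 := hL a haY c hcY (by omega)
    have h3 := F.stepB b c hbc hcM
    exact ⟨hbc, hcM, h1, by omega, by omega, hT _ _ hab (by omega), hT _ _ (by omega) hcM,
      hT _ _ hbc hcM⟩
  have hstep : ∀ c ∈ Y2, ∀ c' ∈ Y2, c < c' → F.h c + F.l c + 8 ≤ F.h c' + F.l c' := by
    intro c hc c' hc' hcc
    exact F.stepB c c' hcc (hfacts c' hc').2.1
  have h1 : C1.card ≤ S.card := by
    have hex : ∀ c, ∃ N, c ∈ C1 → HasInducedCycle G N ∧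
        F.h a + F.h b + 3 + F.l b ≤ N + T b c + F.r a ∧
        N + T b c + F.r a ≤ F.h a + F.h b + 5 + F.l b := by
      intro c
      by_cases hc : c ∈ C1
      · obtain ⟨hc1, hc2⟩ := Finset.mem_filter.1 hc
        obtain ⟨e1, e2, e3, e4, e5, e6, e7, e8⟩ := hfacts c hc1
        obtain ⟨N, hN⟩ := F.hole_three hab e1 e2 e6 e7 e8 hc2 e4
        exact ⟨N, fun _ => hN⟩
      · exact ⟨0, fun h => absurd h hc⟩
    choose N hN using hex
    apply Finset.card_le_card_of_injOn N
    · intro c hc
      exact hS _ (hN c hc).1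
    · have key : ∀ c ∈ C1, ∀ c' ∈ C1, c < c' → N c ≠ N c' := by
        intro c hc c' hc' hcc heq
        have e1 := (hN c hc).2
        have e2 := (hN c' hc').2
        have hc1 := (Finset.mem_filter.1 hc).1
        have hc1' := (Finset.mem_filter.1 hc').1
        have e3 := (hfacts c hc1).2.2.1
        have e4 := (hfacts c' hc1').2.2.1
        have e5 := hstep c hc1 c' hc1' hcc
        omega
      intro c hc c' hc' heq
      rcases lt_trichotomy c c' with h | h | h
      · exact absurd heq (key c hc c' hc' h)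
      · exact h
      · exact absurd heq.symm (key c' hc' c hc h)
  have h2 : C2.card ≤ S.card := by
    have hex : ∀ c, ∃ N, c ∈ C2 → HasInducedCycle G N ∧
        F.h b + F.h c + 3 + F.l c ≤ N + T a b + F.r b ∧
        N + T a b + F.r b ≤ F.h b + F.h c + 5 + F.l c := by
      intro c
      by_cases hc : c ∈ C2
      · obtain ⟨hc1, hc2⟩ := Finset.mem_filter.1 hc
        obtain ⟨e1, e2, e3, e4, e5, e6, e7, e8⟩ := hfacts c hc1
        obtain ⟨N, hN⟩ := F.hole_three' hab e1 e2 e6 e7 e8 hc2 e5
        exact ⟨N, fun _ => hN⟩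
      · exact ⟨0, fun h => absurd h hc⟩
    choose N hN using hex
    apply Finset.card_le_card_of_injOn N
    · intro c hc
      exact hS _ (hN c hc).1
    · have key : ∀ c ∈ C2, ∀ c' ∈ C2, c < c' → N c ≠ N c' := by
        intro c hc c' hc' hcc heq
        have e1 := (hN c hc).2
        have e2 := (hN c' hc').2
        have hc1 := (Finset.mem_filter.1 hc).1
        have hc1' := (Finset.mem_filter.1 hc').1
        have e5 := hstep c hc1 c' hc1' hcc
        omega
      intro c hc c' hc' heq
      rcases lt_trichotomy c c' with h | h | h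
      · exact absurd heq (key c hc c' hc' h)
      · exact h
      · exact absurd heq.symm (key c' hc' c hc h)
  have h3 : C3.card ≤ 1 := by
    rw [Finset.card_le_one]
    have key : ∀ c ∈ C3, ∀ c' ∈ C3, ¬ c < c' := by
      intro c hc c' hc' hcc
      obtain ⟨hc1, hc2⟩ := Finset.mem_filter.1 hc
      obtain ⟨hc1', hc2'⟩ := Finset.mem_filter.1 hc'
      have e3 := (hfacts c hc1).2.2.1
      have e4 := (hfacts c' hc1').2.2.1
      have e5 := hstep c hc1 c' hc1' hcc
      omega
    intro c hc c' hc'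
    have e1 := key c hc c' hc'
    have e2 := key c' hc' c hc
    omega
  omega

/-- A fan with sufficiently many legs has more than `l` lengths of induced cycles. -/
theorem fan_bound (l : ℕ) : ∃ M : ℕ, ∀ (V : Type u) (G : SimpleGraph V) (S : Finset ℕ),
    S.card ≤ l → (∀ N, HasInducedCycle G N → N ∈ S) → Fan G M 8 → False := by
  classical
  obtain ⟨R, hR⟩ := ramsey l (2 * l + 4)
  refine ⟨R, fun V G S hSl hS F => ?_⟩
  have hex : ∀ a b, ∃ t, a < b → b < R → F.IsT a b t := by
    intro a b
    by_cases h : a < b ∧ b < R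
    · obtain ⟨t, ht⟩ := F.exists_isT (a := a) (b := b) (by omega) h.2 (by omega)
      exact ⟨t, fun _ _ => ht⟩
    · exact ⟨0, fun h1 h2 => absurd ⟨h1, h2⟩ h⟩
  choose T hT using hex
  have hc : ∀ a b, a < b → b < R → F.h a + F.h b + 3 + F.l b - F.r a - T a b ∈ S ∧
      (F.h a + F.h b + 3 + F.l b - F.r a - T a b) + T a b + F.r a =
        F.h a + F.h b + 3 + F.l b := by
    intro a b hab hb
    obtain ⟨N, hN, he⟩ := F.hole_two hab hb (hT a b hab hb)
    have : F.h a + F.h b + 3 + F.l b - F.r a - T a b = N := by omega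
    rw [this]
    exact ⟨hS N hN, he⟩
  obtain ⟨Y, hYX, hYc, L, hL⟩ := hR (Finset.range R) S
    (fun a b => F.h a + F.h b + 3 + F.l b - F.r a - T a b) (by simp) hSl (by
      intro a _ b hb hab
      exact (hc a b hab (Finset.mem_range.1 hb)).1)
  have hYM : ∀ a ∈ Y, a < R := fun a ha => Finset.mem_range.1 (hYX ha)
  have := F.card_bound S l hSl hS T hT Y hYM L (by
    intro a ha b hb hab
    have h1 := hL a ha b hb hab
    have h2 := (hc a b hab (hYM b hb)).2
    omega)
  omega

end Pool.Agent.Lib.MP_9fae2f_co
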