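import Pool.Agent.Lib.MP_9fae2f_co.Fan

set_option autoImplicit false

/-!
# From an antichain on an isometric path to a fan
-/

namespace Pool.Agent.Lib.MP_9fae2f_co

open SimpleGraph

universe u

variable {V : Type u}

/-- The positions `e 0, …, e K` on the isometric path `p 0, …, p n` are pairwise incomparable, with
slack `10`. -/
structure Spaced (G : SimpleGraph V) (v : V) (n : ℕ) (p : ℕ → V) (K : ℕ) (e : ℕ → ℕ) : Prop where
  conn : G.Connected
  iso : ∀ i j, i ≤ j → j ≤ n → G.dist (p i) (p j) = j - i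
  le : ∀ t ≤ K, e t ≤ n
  plus : ∀ t < K, e t + G.dist v (p (e t)) + 10 ≤ e (t + 1) + G.dist v (p (e (t + 1)))
  minus : ∀ t < K, e t + G.dist v (p (e (t + 1))) + 10 ≤ e (t + 1) + G.dist v (p (e t))

namespace Spaced

variable {G : SimpleGraph V} {v : V} {n : ℕ} {p : ℕ → V} {K : ℕ} {e : ℕ → ℕ}
  (H : Spaced G v n p K e)

include H

lemma mono_plus {i j : ℕ} (hij : i ≤ j) (hj : j ≤ n) :
    i + G.dist v (p i) ≤ j + G.dist v (p j) := by
  have h1 := H.conn.dist_triangle (u := v) (v := p j) (w := p i)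
  rw [SimpleGraph.dist_comm (u := p j), H.iso i j hij hj] at h1
  omega

lemma mono_minus {i j : ℕ} (hij : i ≤ j) (hj : j ≤ n) :
    i + G.dist v (p j) ≤ j + G.dist v (p i) := by
  have h1 := H.conn.dist_triangle (u := v) (v := p i) (w := p j)
  rw [H.iso i j hij hj] at h1
  omega

lemma e_plus {s t : ℕ} (hst : s ≤ t) (ht : t ≤ K) :
    e s + G.dist v (p (e s)) ≤ e t + G.dist v (p (e t)) := by
  induction t, hst using Nat.le_induction with
  | base => exact le_rfl
  | succ t hst ih =>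
    have h1 := ih (by omega)
    have h2 := H.plus t (by omega)
    omega

lemma e_minus {s t : ℕ} (hst : s ≤ t) (ht : t ≤ K) :
    e s + G.dist v (p (e t)) ≤ e t + G.dist v (p (e s)) := by
  induction t, hst using Nat.le_induction with
  | base => exact le_rfl
  | succ t hst ih =>
    have h1 := ih (by omega)
    have h2 := H.minus t (by omega)
    omega

lemma e_mono {s t : ℕ} (hst : s ≤ t) (ht : t ≤ K) : e s ≤ e t := by
  have h1 := H.e_plus hst ht
  have h2 := H.e_minus hst ht
  omega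

lemma far {i j s t : ℕ} (hi : i ≤ e s) (hst : s < t) (ht : t ≤ K) (hj : e t ≤ j) (hjn : j ≤ n) :
    i + G.dist v (p i) + 10 ≤ j + G.dist v (p j) ∧
      i + G.dist v (p j) + 10 ≤ j + G.dist v (p i) := by
  have hsn := H.le s (by omega)
  have htn := H.le t ht
  have hs1n := H.le (s + 1) (by omega)
  have a1 := H.mono_plus hi hsn
  have a2 := H.mono_minus hi hsn
  have b1 := H.mono_plus hj hjn
  have b2 := H.mono_minus hj hjn
  have c1 := H.plus s (by omega)
  have c2 := H.minus s (by omega)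
  have d1 := H.e_plus (s := s + 1) hst ht
  have d2 := H.e_minus (s := s + 1) hst ht
  omega

lemma p_adj {i : ℕ} (hi : i < n) : G.Adj (p i) (p (i + 1)) := by
  rw [← SimpleGraph.dist_eq_one_iff_adj, H.iso i (i + 1) (by omega) (by omega)]
  omega

lemma p_ind {i j : ℕ} (hij : i + 1 < j) (hj : j ≤ n) : ¬ G.Adj (p i) (p j) := by
  rw [← SimpleGraph.dist_eq_one_iff_adj, H.iso i j (by omega) hj]
  omega

lemma p_inj {i j : ℕ} (hij : i < j) (hj : j ≤ n) : p i ≠ p j := by
  intro heq
  have h1 := H.iso i j (by omega) hj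
  rw [heq, SimpleGraph.dist_self] at h1
  omega

/-- A vertex of a shortest path from `p (e (t+1))` to `v` can be near the rim only between
`e t` and `e (t+2)`. -/
lemma near {t s j : ℕ} (ht : t + 2 ≤ K) {x : V} (hs : G.dist v x = s)
    (hx : G.dist x (p (e (t + 1))) + s ≤ G.dist v (p (e (t + 1))))
    (hj : j ≤ n) (hxj : x = p j ∨ G.Adj x (p j)) : e t < j ∧ j < e (t + 2) := by
  have h1 : G.dist x (p j) ≤ 1 := by
    rcases hxj with h | h
    · rw [h, SimpleGraph.dist_self]; omega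
    · rw [SimpleGraph.dist_eq_one_iff_adj.2 h]
  have h2 := H.conn.dist_triangle (u := p j) (v := x) (w := p (e (t + 1)))
  rw [SimpleGraph.dist_comm (u := p j) (v := x)] at h2
  have h3 := H.conn.dist_triangle (u := v) (v := x) (w := p j)
  have hE := H.le (t + 1) (by omega)
  have hdist : ∀ i : ℕ, i = e (t + 1) → G.dist (p j) (p i) = (j - i) + (i - j) := by
    intro i hi
    rcases Nat.le_total j i with h | h
    · rw [H.iso j i h (by omega)]; omega
    · rw [SimpleGraph.dist_comm, H.iso i j h hj]; omega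
  have h4 := hdist _ rfl
  constructor
  · by_contra hcon
    have h5 := (H.far (i := j) (j := e (t + 1)) (s := t) (t := t + 1) (by omega) (by omega)
      (by omega) le_rfl hE).2
    omega
  · by_contra hcon
    have h5 := (H.far (i := e (t + 1)) (j := j) (s := t + 1) (t := t + 2) le_rfl (by omega)
      (by omega) (by omega) hj).1
    omega

/-- `v` is not near the rim. -/
lemma v_far (hK : 5 ≤ K) {j : ℕ} (hj : j ≤ n) : ¬ (v = p j ∨ G.Adj v (p j)) := by
  intro h
  have h1 := H.near (t := 0) (s := 0) (x := v) (by omega) (by simp) (by simp) hj h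
  have h2 := H.near (t := 3) (s := 0) (x := v) (by omega) (by simp) (by simp) hj h
  have h3 := H.e_mono (s := 2) (t := 3) (by omega) (by omega)
  simp only [Nat.zero_add] at h1
  omega

/-- One leg. -/
lemma exists_leg (hK : 5 ≤ K) {t : ℕ} (ht : t + 2 ≤ K) :
    ∃ (q : ℕ → V) (h l r : ℕ), q 0 = v ∧ (∀ s ≤ h, G.dist v (q s) = s) ∧
      (∀ s < h, G.Adj (q s) (q (s + 1))) ∧ (∀ s < h, ∀ i ≤ n, ¬ G.Adj (q s) (p i)) ∧
      (∀ s ≤ h, ∀ i ≤ n, q s ≠ p i) ∧ G.Adj (q h) (p l) ∧ G.Adj (q h) (p r) ∧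
      (∀ i ≤ n, G.Adj (q h) (p i) → l ≤ i ∧ i ≤ r) ∧ l ≤ r ∧ r ≤ n ∧ e t < l ∧
      r < e (t + 2) := by
  classical
  set u := p (e (t + 1)) with hu
  obtain ⟨q, q0, qd, qadj, qle⟩ := exists_shortest_aux G (H.conn.preconnected v u)
  have hE := H.le (t + 1) (by omega)
  have hup : ∀ i j, i ≤ j → j ≤ G.dist v u → G.dist (q i) (q j) ≤ j - i := by
    intro i j hij hj
    induction j, hij using Nat.le_induction with
    | base => simp
    | succ j hij ih =>
      have h1 := ih (by omega)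
      have h2 := H.conn.dist_triangle (u := q i) (v := q j) (w := q (j + 1))
      rw [SimpleGraph.dist_eq_one_iff_adj.2 (qadj j (by omega))] at h2
      omega
  have hlev : ∀ s ≤ G.dist v u, G.dist v (q s) = s := by
    intro s hs
    have h1 := hup 0 s (by omega) hs
    have h2 := qle 0 s (by omega) hs
    rw [q0] at h1 h2
    omega
  have hnear : ∀ s ≤ G.dist v u, ∀ j ≤ n, (q s = p j ∨ G.Adj (q s) (p j)) →
      e t < j ∧ j < e (t + 2) := by
    intro s hs j hj hsj
    refine H.near ht (hlev s hs) ?_ hj hsj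
    have h1 := hup s _ hs le_rfl
    rw [qd] at h1
    rw [← hu]
    omega
  have hex : ∃ s, s ≤ G.dist v u ∧ ∃ j ≤ n, (q s = p j ∨ G.Adj (q s) (p j)) :=
    ⟨G.dist v u, le_rfl, e (t + 1), hE, Or.inl qd⟩
  obtain ⟨hh, j0, hj0, hj0'⟩ := Nat.find_spec hex
  have hmin : ∀ s < Nat.find hex, ∀ j ≤ n, ¬ (q s = p j ∨ G.Adj (q s) (p j)) := by
    intro s hs j hj hcon
    exact Nat.find_min hex hs ⟨by omega, j, hj, hcon⟩
  set h := Nat.find hex with hhdef
  have hpos : 0 < h := by
    rcases Nat.eq_zero_or_pos h with h0 | h0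
    · rw [h0, q0] at hj0'
      exact absurd hj0' (H.v_far hK hj0)
    · exact h0
  have htop : ∀ i ≤ n, q h ≠ p i := by
    intro i hi heq
    have h1 := qadj (h - 1) (by omega)
    rw [show h - 1 + 1 = h by omega, heq] at h1
    exact hmin (h - 1) (by omega) i hi (Or.inr h1)
  have hadj0 : G.Adj (q h) (p j0) := by
    rcases hj0' with h1 | h1
    · exact absurd h1 (htop j0 hj0)
    · exact h1
  have hexl : ∃ i, G.Adj (q h) (p i) := ⟨j0, hadj0⟩
  have hll := Nat.find_min' hexl hadj0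
  have hl := Nat.find_spec hexl
  have hr := Nat.findGreatest_spec (P := fun i => G.Adj (q h) (p i)) hj0 hadj0
  have hrr := Nat.le_findGreatest (P := fun i => G.Adj (q h) (p i)) hj0 hadj0
  have hrn := Nat.findGreatest_le (P := fun i => G.Adj (q h) (p i)) n
  refine ⟨q, h, Nat.find hexl, Nat.findGreatest (fun i => G.Adj (q h) (p i)) n, q0, ?_, ?_, ?_, ?_,
    hl, hr, ?_, by omega, hrn, ?_, ?_⟩
  · intro s hs; exact hlev s (by omega)
  · intro s hs; exact qadj s (by omega)
  · intro s hs i hi hadj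
    exact hmin s hs i hi (Or.inr hadj)
  · intro s hs i hi heq
    rcases Nat.lt_or_ge s h with h1 | h1
    · exact hmin s h1 i hi (Or.inl heq)
    · have : s = h := by omega
      subst this
      exact htop i hi heq
  · intro i hi hadj
    exact ⟨Nat.find_min' hexl hadj, Nat.le_findGreatest hi hadj⟩
  · exact (hnear h hh _ (by omega) (Or.inr hl)).1
  · exact (hnear h hh _ hrn (Or.inr hr)).2

/-- A long spaced antichain yields a fan. -/
theorem nonempty_fan {M : ℕ} (hM : 2 ≤ M) (hK : 3 * M ≤ K) : Nonempty (Fan G M 8) := by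
  have hex : ∀ a, ∃ (q : ℕ → V) (h l r : ℕ), a < M → q 0 = v ∧ (∀ s ≤ h, G.dist v (q s) = s) ∧
      (∀ s < h, G.Adj (q s) (q (s + 1))) ∧ (∀ s < h, ∀ i ≤ n, ¬ G.Adj (q s) (p i)) ∧
      (∀ s ≤ h, ∀ i ≤ n, q s ≠ p i) ∧ G.Adj (q h) (p l) ∧ G.Adj (q h) (p r) ∧
      (∀ i ≤ n, G.Adj (q h) (p i) → l ≤ i ∧ i ≤ r) ∧ l ≤ r ∧ r ≤ n ∧ e (3 * a) < l ∧
      r < e (3 * a + 2) := by
    intro a
    by_cases ha : a < M
    · obtain ⟨q, h, l, r, hh⟩ := H.exists_leg (by omega) (t := 3 * a) (by omega)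
      exact ⟨q, h, l, r, fun _ => hh⟩
    · exact ⟨fun _ => v, 0, 0, 0, fun h => absurd h ha⟩
  choose q h l r hq using hex
  have key : ∀ a b, a < b → b < M → e (3 * a + 2) ≤ e (3 * b) := fun a b hab hb =>
    H.e_mono (by omega) (by omega)
  refine ⟨{
    g := fun x => G.dist v x
    lip := ?_
    v := v
    n := n
    p := p
    p_adj := fun i hi => H.p_adj hi
    p_ind := fun i j hij hj => H.p_ind hij hj
    p_inj := fun i j hij hj => H.p_inj hij hj
    q := q
    h := h
    l := l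
    r := r
    q_zero := fun a ha => (hq a ha).1
    g_q := fun a ha => (hq a ha).2.1
    q_adj := fun a ha => (hq a ha).2.2.1
    q_far := fun a ha => (hq a ha).2.2.2.1
    q_ne := fun a ha => (hq a ha).2.2.2.2.1
    w_l := fun a ha => (hq a ha).2.2.2.2.2.1
    w_r := fun a ha => (hq a ha).2.2.2.2.2.2.1
    w_out := fun a ha => (hq a ha).2.2.2.2.2.2.2.1
    lr := fun a ha => (hq a ha).2.2.2.2.2.2.2.2.1
    rn := fun a ha => (hq a ha).2.2.2.2.2.2.2.2.2.1
    sep := ?_
    stepA := ?_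
    stepB := ?_ }⟩
  · intro x y hxy
    have h1 := H.conn.dist_triangle (u := v) (v := y) (w := x)
    rw [SimpleGraph.dist_eq_one_iff_adj.2 hxy.symm] at h1
    exact h1
  · intro a b hab hb
    obtain ⟨-, -, -, -, -, -, -, -, -, -, -, h1⟩ := hq a (by omega)
    obtain ⟨-, -, -, -, -, -, -, -, -, -, h2, -⟩ := hq b hb
    have := key a b hab hb
    omega
  · intro a b hab hb
    obtain ⟨-, a1, -, -, -, -, a2, -, -, -, -, a3⟩ := hq a (by omega)
    obtain ⟨-, b1, -, -, -, -, b2, -, b4, b5, b3, -⟩ := hq b hb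
    have ha := a1 (h a) le_rfl
    have hb' := b1 (h b) le_rfl
    have h1 := H.conn.dist_triangle (u := v) (v := q a (h a)) (w := p (r a))
    rw [SimpleGraph.dist_eq_one_iff_adj.2 a2] at h1
    have h2 := H.conn.dist_triangle (u := v) (v := p (r b)) (w := q b (h b))
    rw [SimpleGraph.dist_eq_one_iff_adj.2 b2.symm] at h2
    have h3 := (H.far (i := r a) (j := r b) (s := 3 * a + 2) (t := 3 * b) (by omega) (by omega)
      (by omega) (by omega) b5).2
    omega
  · intro a b hab hb
    obtain ⟨-, a1, -, -, -, a2, -, -, a4, -, -, a3⟩ := hq a (by omega)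
    obtain ⟨-, b1, -, -, -, b2, -, -, b4, b5, b3, -⟩ := hq b hb
    have ha := a1 (h a) le_rfl
    have hb' := b1 (h b) le_rfl
    have h1 := H.conn.dist_triangle (u := v) (v := p (l a)) (w := q a (h a))
    rw [SimpleGraph.dist_eq_one_iff_adj.2 a2.symm] at h1
    have h2 := H.conn.dist_triangle (u := v) (v := q b (h b)) (w := p (l b))
    rw [SimpleGraph.dist_eq_one_iff_adj.2 b2] at h2
    have h3 := (H.far (i := l a) (j := l b) (s := 3 * a + 2) (t := 3 * b) (by omega) (by omega)
      (by omega) (by omega) (by omega)).1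
    omega

end Spaced

end Pool.Agent.Lib.MP_9fae2f_co
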