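import Pool.Agent.Lib.MP_9fae2f_co.Defs
import Pool.Agent.Lib.MP_9fae2f_co.Legs
import Pool.Agent.Lib.MP_9fae2f_co.FanBound

set_option autoImplicit false

/-!
# Covering an isometric path by rooted isometric paths, or finding a large antichain
-/

namespace Pool.Agent.Lib.MP_9fae2f_co

open SimpleGraph

universe u

/-- The positions `i ≤ j` are comparable. -/
def Comp (g : ℕ → ℕ) (i j : ℕ) : Prop := g j = g i + (j - i) ∨ g i = g j + (j - i)

/-- Either there is an antichain `e 0 = s < e 1 < … < e k`, or the segment from `s` to `n` is a union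
of `k` segments with comparable ends. -/
lemma greedy (g : ℕ → ℕ) (n : ℕ)
    (hg : ∀ i j, i ≤ j → j ≤ n → g j ≤ g i + (j - i) ∧ g i ≤ g j + (j - i)) :
    ∀ k s : ℕ, s ≤ n →
      (∃ e : ℕ → ℕ, e 0 = s ∧ (∀ t ≤ k, e t ≤ n) ∧
        (∀ t < k, e t + g (e t) < e (t + 1) + g (e (t + 1))) ∧
        (∀ t < k, e t + g (e (t + 1)) < e (t + 1) + g (e t))) ∨
      (∃ α β : ℕ → ℕ, (∀ t < k, α t ≤ β t ∧ β t ≤ n ∧ Comp g (α t) (β t)) ∧
        ∀ i, s ≤ i → i ≤ n → ∃ t < k, α t ≤ i ∧ i ≤ β t) := by
  classical
  intro k
  induction k with
  | zero =>
    intro s hs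
    exact Or.inl ⟨fun _ => s, rfl, fun _ _ => hs, fun t ht => absurd ht (by omega),
      fun t ht => absurd ht (by omega)⟩
  | succ k ih =>
    intro s hs
    by_cases hex : ∃ i, s ≤ i ∧ i ≤ n ∧ ¬ Comp g s i
    · obtain ⟨h1, h2, h3⟩ := Nat.find_spec hex
      have hmin : ∀ i, i < Nat.find hex → s ≤ i → Comp g s i := by
        intro i hi hsi
        by_contra hcon
        exact Nat.find_min hex hi ⟨hsi, by omega, hcon⟩
      set s' := Nat.find hex with hs'
      have hne : s ≠ s' := by
        intro h
        apply h3
        rw [← h]
        left; omega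
      have h4 := hg s s' h1 h2
      have h5 : g s' ≠ g s + (s' - s) ∧ g s ≠ g s' + (s' - s) := by
        constructor
        · intro h; exact h3 (Or.inl h)
        · intro h; exact h3 (Or.inr h)
      rcases ih s' h2 with ⟨e, he0, hen, hep, hem⟩ | ⟨α, β, hαβ, hcov⟩
      · left
        refine ⟨fun t => if t = 0 then s else e (t - 1), by simp, ?_, ?_, ?_⟩
        · intro t ht
          beta_reduce
          split_ifs with h
          · exact hs
          · exact hen _ (by omega)
        · intro t ht
          rcases Nat.eq_zero_or_pos t with h | h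
          · subst h
            simp only [if_true, Nat.zero_add, one_ne_zero, if_false, Nat.sub_self, he0]
            omega
          · beta_reduce
            rw [if_neg (by omega), if_neg (by omega)]
            have := hep (t - 1) (by omega)
            rw [show t - 1 + 1 = t by omega] at this
            rw [show t + 1 - 1 = t by omega]
            exact this
        · intro t ht
          rcases Nat.eq_zero_or_pos t with h | h
          · subst h
            simp only [if_true, Nat.zero_add, one_ne_zero, if_false, Nat.sub_self, he0]
            omega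
          · beta_reduce
            rw [if_neg (by omega), if_neg (by omega)]
            have := hem (t - 1) (by omega)
            rw [show t - 1 + 1 = t by omega] at this
            rw [show t + 1 - 1 = t by omega]
            exact this
      · right
        refine ⟨fun t => if t = k then s else α t, fun t => if t = k then s' - 1 else β t, ?_, ?_⟩
        · intro t ht
          by_cases h : t = k
          · simp only [h, if_true]
            exact ⟨by omega, by omega, hmin _ (by omega) (by omega)⟩
          · simp only [h, if_false]
            exact hαβ t (by omega)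
        · intro i hsi hin
          rcases Nat.lt_or_ge i s' with h | h
          · refine ⟨k, by omega, ?_⟩
            simp only [if_true]
            omega
          · obtain ⟨t, ht, h6⟩ := hcov i h hin
            refine ⟨t, by omega, ?_⟩
            beta_reduce
            rw [if_neg (by omega), if_neg (by omega)]
            exact h6
    · right
      push Not at hex
      refine ⟨fun _ => s, fun _ => n, fun t _ => ⟨hs, le_rfl, hex n hs le_rfl⟩, ?_⟩
      intro i hsi hin
      exact ⟨0, by omega, hsi, hin⟩

variable {V : Type u}

/-- A segment of a path as a walk. -/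
lemma exists_walk_segment (G : SimpleGraph V) (p : ℕ → V) (a b : ℕ) (hab : a ≤ b)
    (hp : ∀ i, a ≤ i → i < b → G.Adj (p i) (p (i + 1))) :
    ∃ W : G.Walk (p a) (p b), W.length = b - a ∧ ∀ i, a ≤ i → i ≤ b → p i ∈ W.support := by
  induction b, hab using Nat.le_induction with
  | base =>
    refine ⟨Walk.nil, by simp, fun i h1 h2 => ?_⟩
    have : i = a := by omega
    subst this
    simp
  | succ b hab ih =>
    obtain ⟨W, hW, hsup⟩ := ih (fun i h1 h2 => hp i h1 (by omega))
    refine ⟨W.concat (hp b hab (by omega)), ?_, ?_⟩
    · rw [Walk.length_concat, hW]; omega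
    · intro i h1 h2
      rw [Walk.support_concat]
      rcases Nat.lt_or_ge b i with h | h
      · have : i = b + 1 := by omega
        subst this
        simp
      · rw [List.mem_append]
        exact Or.inl (hsup i h1 h)

/-- A segment with comparable ends is contained in a rooted isometric path. -/
lemma exists_rooted (G : SimpleGraph V) (hG : G.Connected) (v : V) (n : ℕ) (p : ℕ → V)
    (hp : ∀ i < n, G.Adj (p i) (p (i + 1))) {a b : ℕ} (hab : a ≤ b) (hb : b ≤ n)
    (hc : Comp (fun i => G.dist v (p i)) a b) :
    ∃ (z : V) (Q : G.Walk v z), IsIsometric Q ∧ ∀ i, a ≤ i → i ≤ b → p i ∈ Q.support := by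
  obtain ⟨W, hW, hsup⟩ := exists_walk_segment G p a b hab (fun i _ h2 => hp i (by omega))
  rcases hc with hc | hc
  · obtain ⟨P, hP⟩ := hG.exists_walk_length_eq_dist v (p a)
    have hl : (P.append W).length = G.dist v (p b) := by
      rw [Walk.length_append, hP, hW]; exact hc.symm
    refine ⟨p b, P.append W, ⟨Walk.isPath_of_length_eq_dist _ hl, hl⟩, ?_⟩
    intro i h1 h2
    rw [Walk.mem_support_append_iff]
    exact Or.inr (hsup i h1 h2)
  · obtain ⟨P, hP⟩ := hG.exists_walk_length_eq_dist v (p b)
    have hl : (P.append W.reverse).length = G.dist v (p a) := by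
      rw [Walk.length_append, hP, Walk.length_reverse, hW]; exact hc.symm
    refine ⟨p a, P.append W.reverse, ⟨Walk.isPath_of_length_eq_dist _ hl, hl⟩, ?_⟩
    intro i h1 h2
    rw [Walk.mem_support_append_iff, Walk.support_reverse, List.mem_reverse]
    exact Or.inr (hsup i h1 h2)

/-- The bound on the strong isometric path complexity, for finitely many lengths. -/
theorem exists_bound (l : ℕ) : ∃ k : ℕ, ∀ (V : Type u) (G : SimpleGraph V), G.Connected →
    Polyholed G l → ∀ v, HasProperty G v k := by
  classical
  obtain ⟨M, hM⟩ := fan_bound.{u} l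
  set M' := max M 2 with hM'
  refine ⟨10 * (3 * M'), fun V G hG hl v x y P hP => ?_⟩
  -- the finite set of the lengths
  have hfin : {N | HasInducedCycle G N}.Finite :=
    Set.finite_of_encard_le_coe hl
  set n := P.length with hn
  have hadj : ∀ i < n, G.Adj (P.getVert i) (P.getVert (i + 1)) := fun i hi =>
    P.adj_getVert_succ hi
  have hiso : ∀ i j, i ≤ j → j ≤ n → G.dist (P.getVert i) (P.getVert j) = j - i := by
    intro i j hij hj
    have h1 : G.dist x (P.getVert i) ≤ i := by
      have := SimpleGraph.dist_le (P.take i)
      rw [Walk.take_length] at this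
      omega
    have h2 : G.dist (P.getVert j) y ≤ n - j := by
      have := SimpleGraph.dist_le (P.drop j)
      rw [Walk.drop_length] at this
      omega
    have h3 := hG.dist_triangle (u := x) (v := P.getVert i) (w := y)
    have h4 := hG.dist_triangle (u := P.getVert i) (v := P.getVert j) (w := y)
    obtain ⟨W, hW, -⟩ := exists_walk_segment G P.getVert i j hij
      (fun t _ h => hadj t (by omega))
    have h5 := SimpleGraph.dist_le W
    have h6 := hP.2
    omega
  have hg : ∀ i j, i ≤ j → j ≤ n →
      G.dist v (P.getVert j) ≤ G.dist v (P.getVert i) + (j - i) ∧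
      G.dist v (P.getVert i) ≤ G.dist v (P.getVert j) + (j - i) := by
    intro i j hij hj
    have h1 := hG.dist_triangle (u := v) (v := P.getVert i) (w := P.getVert j)
    have h2 := hG.dist_triangle (u := v) (v := P.getVert j) (w := P.getVert i)
    rw [SimpleGraph.dist_comm (u := P.getVert j) (v := P.getVert i)] at h2
    rw [hiso i j hij hj] at h1 h2
    exact ⟨h1, h2⟩
  rcases greedy (fun i => G.dist v (P.getVert i)) n hg (10 * (3 * M')) 0 (by omega) with
    ⟨e, -, hen, hep, hem⟩ | ⟨α, β, hαβ, hcov⟩
  · exfalso
    -- telescoping
    have hp10 : ∀ t j, t + j ≤ 10 * (3 * M') →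
        e t + G.dist v (P.getVert (e t)) + j ≤ e (t + j) + G.dist v (P.getVert (e (t + j))) := by
      intro t j
      induction j with
      | zero => intro _; simp
      | succ j ih =>
        intro h
        have h1 := ih (by omega)
        have h2 := hep (t + j) (by omega)
        rw [show t + (j + 1) = t + j + 1 by omega]
        omega
    have hm10 : ∀ t j, t + j ≤ 10 * (3 * M') →
        e t + G.dist v (P.getVert (e (t + j))) + j ≤ e (t + j) + G.dist v (P.getVert (e t)) := by
      intro t j
      induction j with
      | zero => intro _; simp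
      | succ j ih =>
        intro h
        have h1 := ih (by omega)
        have h2 := hem (t + j) (by omega)
        rw [show t + (j + 1) = t + j + 1 by omega]
        omega
    have hS : Spaced G v n P.getVert (3 * M') (fun t => e (10 * t)) := by
      refine ⟨hG, hiso, fun t ht => hen _ (by omega), ?_, ?_⟩
      · intro t ht
        exact hp10 (10 * t) 10 (by omega)
      · intro t ht
        exact hm10 (10 * t) 10 (by omega)
    obtain ⟨F⟩ := hS.nonempty_fan (M := M') (le_max_right _ _) le_rfl
    -- restrict the fan to `M` legs
    have hMM : M ≤ M' := le_max_left _ _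
    have F' : Fan G M 8 :=
      { g := F.g, lip := F.lip, v := F.v, n := F.n, p := F.p, p_adj := F.p_adj, p_ind := F.p_ind,
        p_inj := F.p_inj, q := F.q, h := F.h, l := F.l, r := F.r,
        q_zero := fun a ha => F.q_zero a (by omega)
        g_q := fun a ha => F.g_q a (by omega)
        q_adj := fun a ha => F.q_adj a (by omega)
        q_far := fun a ha => F.q_far a (by omega)
        q_ne := fun a ha => F.q_ne a (by omega)
        w_l := fun a ha => F.w_l a (by omega)
        w_r := fun a ha => F.w_r a (by omega)
        w_out := fun a ha => F.w_out a (by omega)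
        lr := fun a ha => F.lr a (by omega)
        rn := fun a ha => F.rn a (by omega)
        sep := fun a b hab hb => F.sep a b hab (by omega)
        stepA := fun a b hab hb => F.stepA a b hab (by omega)
        stepB := fun a b hab hb => F.stepB a b hab (by omega) }
    refine hM V G hfin.toFinset ?_ (fun N hN => by simpa using hN) F'
    have h1 : ((hfin.toFinset.card : ℕ) : ℕ∞) = {N | HasInducedCycle G N}.encard := by
      rw [← Set.encard_coe_eq_coe_finsetCard, Set.Finite.coe_toFinset]
    have h2 : ((hfin.toFinset.card : ℕ) : ℕ∞) ≤ (l : ℕ∞) := by rw [h1]; exact hl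
    exact_mod_cast h2
  · -- cover
    have hex : ∀ t : Fin (10 * (3 * M')), ∃ (z : V) (Q : G.Walk v z), IsIsometric Q ∧
        ∀ i, α t ≤ i → i ≤ β t → P.getVert i ∈ Q.support := by
      intro t
      obtain ⟨h1, h2, h3⟩ := hαβ t t.isLt
      exact exists_rooted G hG v n P.getVert hadj h1 h2 h3
    choose z Q hQ hQ2 using hex
    refine ⟨z, Q, hQ, ?_⟩
    intro u hu
    obtain ⟨i, hi, hin⟩ := Walk.mem_support_iff_exists_getVert.1 hu
    obtain ⟨t, ht, h1, h2⟩ := hcov i (by omega) hin
    refine ⟨⟨t, ht⟩, ?_⟩
    rw [← hi]
    exact hQ2 ⟨t, ht⟩ i h1 h2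

end Pool.Agent.Lib.MP_9fae2f_co
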