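import Pool.Agent.Lib.MP_9fae2f_co.Hole

set_option autoImplicit false

/-!
# Isometric path complexity
-/

namespace Pool.Agent.Lib.MP_9fae2f_co

open SimpleGraph

universe u

variable {V : Type u}

/-- An isometric path: a path which is a shortest path between its two ends. -/
def IsIsometric {G : SimpleGraph V} {x y : V} (P : G.Walk x y) : Prop :=
  P.IsPath ∧ P.length = G.dist x y

/-- `v` has property `(k)`: for every isometric path `P` there are `k` isometric paths starting at
`v` whose vertex sets together contain all vertices of `P`. -/
def HasProperty (G : SimpleGraph V) (v : V) (k : ℕ) : Prop :=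
  ∀ (x y : V) (P : G.Walk x y), IsIsometric P →
    ∃ (z : Fin k → V) (Q : ∀ i, G.Walk v (z i)), (∀ i, IsIsometric (Q i)) ∧
      ∀ u ∈ P.support, ∃ i, u ∈ (Q i).support

/-- The isometric path complexity: the least `k` such that some vertex has property `(k)`. -/
noncomputable def ipco (G : SimpleGraph V) : ℕ := sInf {k | ∃ v, HasProperty G v k}

/-- The strong isometric path complexity: the least `k` such that every vertex has
property `(k)`. -/
noncomputable def sipco (G : SimpleGraph V) : ℕ := sInf {k | ∀ v, HasProperty G v k}

/-- `G` is `l`-polyholed: the set of the lengths of its induced cycles has at most `l` elements. -/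
def Polyholed (G : SimpleGraph V) (l : ℕ) : Prop := {N | HasInducedCycle G N}.encard ≤ l

end Pool.Agent.Lib.MP_9fae2f_co
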