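import Mathlib

set_option autoImplicit false

/-! Finite Ramsey theorem for pairs of natural numbers and several colours. -/

namespace Pool.Agent.Lib.MP_9fae2f_co

/-- Sets in which the colour of a pair depends on its smaller element only. -/
theorem end_homogeneous (l : ℕ) : ∀ k : ℕ, ∃ R : ℕ, ∀ (X S : Finset ℕ) (c : ℕ → ℕ → ℕ),
    R ≤ X.card → S.Nonempty → S.card ≤ l → (∀ a ∈ X, ∀ b ∈ X, a < b → c a b ∈ S) →
    ∃ Y ⊆ X, Y.card = k ∧ ∃ κ : ℕ → ℕ, (∀ a ∈ Y, κ a ∈ S) ∧
      ∀ a ∈ Y, ∀ b ∈ Y, a < b → c a b = κ a := by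
  intro k
  induction k with
  | zero =>
    refine ⟨0, fun X S c _ _ _ _ => ⟨∅, by simp, by simp, fun _ => 0, by simp, by simp⟩⟩
  | succ k ih =>
    obtain ⟨R, hR⟩ := ih
    refine ⟨l * R + 1, fun X S c hX hS hSl hc => ?_⟩
    have hXne : X.Nonempty := by
      rw [← Finset.card_pos]; omega
    set x := X.min' hXne with hx
    have hxX : x ∈ X := Finset.min'_mem _ _
    have hcard : (X.erase x).card = X.card - 1 := Finset.card_erase_of_mem hxX
    have hmaps : ∀ b ∈ X.erase x, c x b ∈ S := by
      intro b hb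
      have hb' := Finset.mem_erase.1 hb
      exact hc x hxX b hb'.2 (lt_of_le_of_ne (Finset.min'_le _ _ hb'.2) (Ne.symm hb'.1))
    have hmul : S.card * R ≤ (X.erase x).card := by
      have : S.card * R ≤ l * R := Nat.mul_le_mul_right _ hSl
      omega
    obtain ⟨y, hyS, hy⟩ :=
      Finset.exists_le_card_fiber_of_mul_le_card_of_maps_to hmaps hS hmul
    obtain ⟨Y, hYX, hYc, κ, hκ, hκ2⟩ := hR _ S c hy hS hSl (by
      intro a ha b hb hab
      exact hc a (Finset.mem_of_mem_erase (Finset.mem_filter.1 ha).1) b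
        (Finset.mem_of_mem_erase (Finset.mem_filter.1 hb).1) hab)
    have hxY : x ∉ Y := by
      intro h
      exact (Finset.mem_erase.1 (Finset.mem_filter.1 (hYX h)).1).1 rfl
    have hlt : ∀ b ∈ Y, x < b := by
      intro b hb
      have hb' := Finset.mem_erase.1 (Finset.mem_filter.1 (hYX hb)).1
      exact lt_of_le_of_ne (Finset.min'_le _ _ hb'.2) (Ne.symm hb'.1)
    refine ⟨insert x Y, ?_, ?_, fun a => if a = x then y else κ a, ?_, ?_⟩
    · intro a ha
      rcases Finset.mem_insert.1 ha with rfl | ha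
      · exact hxX
      · exact Finset.mem_of_mem_erase (Finset.mem_filter.1 (hYX ha)).1
    · rw [Finset.card_insert_of_notMem hxY, hYc]
    · intro a ha
      dsimp only
      split_ifs with h
      · exact hyS
      · rcases Finset.mem_insert.1 ha with h' | h'
        · exact absurd h' h
        · exact hκ a h'
    · intro a ha b hb hab
      dsimp only
      rcases Finset.mem_insert.1 ha with h | h
      · subst h
        rw [if_pos rfl]
        rcases Finset.mem_insert.1 hb with h' | h'
        · omega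
        · exact (Finset.mem_filter.1 (hYX h')).2
      · have hxa := hlt a h
        rw [if_neg (by omega)]
        rcases Finset.mem_insert.1 hb with h' | h'
        · omega
        · exact hκ2 a h b h' hab

/-- Ramsey's theorem for pairs. -/
theorem ramsey (l m : ℕ) : ∃ R : ℕ, ∀ (X S : Finset ℕ) (c : ℕ → ℕ → ℕ),
    R ≤ X.card → S.card ≤ l → (∀ a ∈ X, ∀ b ∈ X, a < b → c a b ∈ S) →
    ∃ Y ⊆ X, m ≤ Y.card ∧ ∃ L : ℕ, ∀ a ∈ Y, ∀ b ∈ Y, a < b → c a b = L := by
  obtain ⟨R, hR⟩ := end_homogeneous l (l * m)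
  refine ⟨max R (max 2 m), fun X S c hX hSl hc => ?_⟩
  rcases S.eq_empty_or_nonempty with hS | hS
  · exfalso
    have h2 : 1 < X.card := by
      have := le_max_right R (max 2 m)
      have := le_max_left 2 m
      omega
    obtain ⟨a, ha, b, hb, hab⟩ := Finset.one_lt_card.1 h2
    rcases lt_or_gt_of_ne hab with h | h
    · have := hc a ha b hb h
      rw [hS] at this
      simp at this
    · have := hc b hb a ha h
      rw [hS] at this
      simp at this
  · obtain ⟨Y, hYX, hYc, κ, hκ, hκ2⟩ := hR X S c (le_trans (le_max_left _ _) hX) hS hSl hc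
    have hmul : S.card * m ≤ Y.card := by
      rw [hYc]; exact Nat.mul_le_mul_right _ hSl
    obtain ⟨y, hyS, hy⟩ := Finset.exists_le_card_fiber_of_mul_le_card_of_maps_to hκ hS hmul
    refine ⟨Y.filter (fun a => κ a = y), (Finset.filter_subset _ _).trans hYX, hy, y, ?_⟩
    intro a ha b hb hab
    rw [Finset.mem_filter] at ha hb
    rw [hκ2 a ha.1 b hb.1 hab, ha.2]

end Pool.Agent.Lib.MP_9fae2f_co
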