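import Pool.Agent.Lib.MP_9fae2f_co.Hole
import Pool.Agent.Lib.MP_9fae2f_co.Ramsey

set_option autoImplicit false

/-!
# Fans of shortest paths

`M` shortest paths from a vertex `v` (legs) ending near an isometric path (rim).
-/

namespace Pool.Agent.Lib.MP_9fae2f_co

open SimpleGraph

universe u

variable {V : Type u}

/-- Legs: leg `a` is `q a 0 = v, q a 1, …, q a (h a)`, the vertex `q a s` being on level `s`.  Only
its last vertex is near the rim `p 0, …, p n`, with first and last neighbour `p (l a)`, `p (r a)`. -/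
structure Fan (G : SimpleGraph V) (M : ℕ) (mu : ℕ) where
  g : V → ℕ
  lip : ∀ x y, G.Adj x y → g x ≤ g y + 1
  v : V
  n : ℕ
  p : ℕ → V
  p_adj : ∀ i < n, G.Adj (p i) (p (i + 1))
  p_ind : ∀ i j, i + 1 < j → j ≤ n → ¬ G.Adj (p i) (p j)
  p_inj : ∀ i j, i < j → j ≤ n → p i ≠ p j
  q : ℕ → ℕ → V
  h : ℕ → ℕ
  l : ℕ → ℕ
  r : ℕ → ℕ
  q_zero : ∀ a < M, q a 0 = v
  g_q : ∀ a < M, ∀ s ≤ h a, g (q a s) = s
  q_adj : ∀ a < M, ∀ s < h a, G.Adj (q a s) (q a (s + 1))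
  q_far : ∀ a < M, ∀ s < h a, ∀ i ≤ n, ¬ G.Adj (q a s) (p i)
  q_ne : ∀ a < M, ∀ s ≤ h a, ∀ i ≤ n, q a s ≠ p i
  w_l : ∀ a < M, G.Adj (q a (h a)) (p (l a))
  w_r : ∀ a < M, G.Adj (q a (h a)) (p (r a))
  w_out : ∀ a < M, ∀ i ≤ n, G.Adj (q a (h a)) (p i) → l a ≤ i ∧ i ≤ r a
  lr : ∀ a < M, l a ≤ r a
  rn : ∀ a < M, r a ≤ n
  sep : ∀ a b, a < b → b < M → r a < l b
  stepA : ∀ a b, a < b → b < M → h b + r a + mu ≤ h a + r b
  stepB : ∀ a b, a < b → b < M → h a + l a + mu ≤ h b + l b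

namespace Fan

variable {G : SimpleGraph V} {M mu : ℕ} (F : Fan G M mu)

/-- The top of a leg. -/
def w (a : ℕ) : V := F.q a (F.h a)

lemma adj_rim {x s i : ℕ} (hx : x < M) (hs : s ≤ F.h x) (hi : i ≤ F.n)
    (hadj : G.Adj (F.q x s) (F.p i)) : s = F.h x ∧ F.l x ≤ i ∧ i ≤ F.r x := by
  rcases Nat.lt_or_ge s (F.h x) with h | h
  · exact absurd hadj (F.q_far x hx s h i hi)
  · have h2 : s = F.h x := by omega
    subst h2
    exact ⟨rfl, F.w_out x hx i hi hadj⟩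

lemma ln {a : ℕ} (ha : a < M) : F.l a ≤ F.n := le_trans (F.lr a ha) (F.rn a ha)

/-- The top of a leg is not on another leg. -/
lemma w_ne {x y s : ℕ} (hx : x < M) (hy : y < M) (hxy : x ≠ y) (hs : s ≤ F.h y) :
    F.w x ≠ F.q y s := by
  intro heq
  have h1 := F.w_l x hx
  rw [show F.q x (F.h x) = F.q y s from heq] at h1
  have h2 := F.adj_rim hy hs (F.ln hx) h1
  have h3 := F.lr x hx
  have h4 := F.lr y hy
  rcases lt_or_gt_of_ne hxy with h | h
  · have := F.sep x y h hy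
    omega
  · have := F.sep y x h hx
    omega

/-- A shortest path between two tops, through legs which are not between them, yields an induced
cycle. -/
lemma hole_of_dist {a b : ℕ} (hab : a < b) (hb : b < M) (W : Set V)
    (hW : ∀ y ∈ W, ∃ x < M, (x ≤ a ∨ b ≤ x) ∧ ∃ s ≤ F.h x, y = F.q x s)
    (hwb : F.w b ∈ W) (hr : (rg G W).Reachable (F.w b) (F.w a)) :
    HasInducedCycle G ((rg G W).dist (F.w b) (F.w a) + (F.l b - F.r a) + 2) := by
  have ha : a < M := by omega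
  have hsep := F.sep a b hab hb
  have hln := F.ln hb
  have hlra := F.lr a ha
  have hlrb := F.lr b hb
  obtain ⟨f, h0, hd, hfW, hfadj, hfind, hfinj⟩ := exists_shortest G W hwb hr
  refine hasInducedCycle_glue G _ _ (by omega) f (fun j => F.p (F.r a + j)) hfadj hfind hfinj
    ?_ ?_ ?_ ?_ ?_
  · intro i hi
    exact F.p_adj (F.r a + i) (by omega)
  · intro i j hij hj
    exact F.p_ind _ _ (by omega) (by omega)
  · intro i j hij hj
    exact F.p_inj _ _ (by omega) (by omega)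
  · intro i hi j hj
    obtain ⟨x, hx, -, s, hs, hxs⟩ := hW _ (hfW i hi)
    rw [hxs]
    exact F.q_ne x hx s hs _ (by omega)
  · intro i hi j hj
    constructor
    · intro hadj
      obtain ⟨x, hx, hxab, s, hs, hxs⟩ := hW _ (hfW i hi)
      rw [hxs] at hadj
      obtain ⟨hsx, h1, h2⟩ := F.adj_rim hx hs (by omega) hadj
      rcases hxab with hxa | hxb
      · rcases Nat.lt_or_ge x a with h | h
        · have := F.sep x a h ha
          omega
        · have hxa' : x = a := by omega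
          subst hxa'
          left
          refine ⟨?_, by omega⟩
          by_contra hne
          apply hfinj i _ (lt_of_le_of_ne hi hne) le_rfl
          rw [hd, hxs, hsx]
          rfl
      · rcases Nat.lt_or_ge b x with h | h
        · have := F.sep b x h hx
          omega
        · have hxb' : x = b := by omega
          subst hxb'
          right
          refine ⟨?_, by omega⟩
          by_contra hne
          apply hfinj 0 i (by omega) hi
          rw [h0, hxs, hsx]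
          rfl
    · rintro (⟨rfl, rfl⟩ | ⟨rfl, rfl⟩)
      · rw [hd]
        exact F.w_r a ha
      · rw [h0, show F.r a + (F.l b - F.r a) = F.l b by omega]
        exact F.w_l b hb

/-! ### Walks inside a set -/

lemma walk_leg (W : Set V) {a s t : ℕ} (ha : a < M) (hst : s ≤ t) (ht : t ≤ F.h a)
    (hW : ∀ i, s ≤ i → i ≤ t → F.q a i ∈ W) :
    ∃ P : (rg G W).Walk (F.q a s) (F.q a t), P.length = t - s := by
  induction t, hst using Nat.le_induction with
  | base => exact ⟨Walk.nil, by simp⟩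
  | succ t hst ih =>
    obtain ⟨P, hP⟩ := ih (by omega) (fun i h1 h2 => hW i h1 (by omega))
    have hadj : (rg G W).Adj (F.q a t) (F.q a (t + 1)) :=
      ⟨F.q_adj a ha t (by omega), hW t hst (by omega), hW (t + 1) (by omega) le_rfl⟩
    refine ⟨P.concat hadj, ?_⟩
    rw [Walk.length_concat, hP]
    omega

lemma lip_seq (f : ℕ → V) (d : ℕ) (hf : ∀ i < d, G.Adj (f i) (f (i + 1))) :
    ∀ i ≤ d, F.g (f 0) ≤ F.g (f i) + i := by
  intro i
  induction i with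
  | zero => intro _; omega
  | succ i ih =>
    intro hi
    have h1 := ih (by omega)
    have h2 := F.lip _ _ (hf i (by omega))
    omega

lemma lip_seq' (f : ℕ → V) (d : ℕ) (hf : ∀ i < d, G.Adj (f i) (f (i + 1))) (i : ℕ) (hi : i ≤ d) :
    F.g (f d) ≤ F.g (f i) + (d - i) := by
  induction d, hi using Nat.le_induction with
  | base => omega
  | succ d hd ih =>
    have h1 := ih (fun j hj => hf j (by omega))
    have h2 := F.lip _ _ (hf d (by omega)).symm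
    omega

/-- `t` is the greatest level sum of an edge between the legs `a` and `b`. -/
def IsT (a b t : ℕ) : Prop :=
  (∃ s ≤ F.h a, ∃ s' ≤ F.h b, G.Adj (F.q a s) (F.q b s') ∧ s + s' = t) ∧
    ∀ s ≤ F.h a, ∀ s' ≤ F.h b, G.Adj (F.q a s) (F.q b s') → s + s' ≤ t

lemma IsT.symm {a b t : ℕ} (ht : F.IsT a b t) : F.IsT b a t := by
  obtain ⟨⟨s, hs, s', hs', hadj, he⟩, h2⟩ := ht
  refine ⟨⟨s', hs', s, hs, hadj.symm, by omega⟩, fun x hx y hy hxy => ?_⟩
  have := h2 y hy x hx hxy.symm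
  omega

lemma exists_isT {a b : ℕ} (ha : a < M) (hb : b < M) (hab : a ≠ b) : ∃ t, F.IsT a b t := by
  classical
  -- an edge between the two legs
  have h1 : ∃ s ≤ F.h a, ∃ s' ≤ F.h b, G.Adj (F.q a s) (F.q b s') := by
    have h0 : F.q a 0 ∈ {y | ∃ s' ≤ F.h b, y = F.q b s'} :=
      ⟨0, by omega, by rw [F.q_zero a ha, F.q_zero b hb]⟩
    have htop : F.q a (F.h a) ∉ {y | ∃ s' ≤ F.h b, y = F.q b s'} := by
      rintro ⟨s', hs', heq⟩
      exact F.w_ne ha hb hab hs' heq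
    obtain ⟨i, hi, h2, s', hs', h3⟩ := exists_crossing {y | ∃ s' ≤ F.h b, y = F.q b s'}
      (fun i => F.q a (F.h a - i)) (F.h a) (by simpa using htop) (by simpa using h0)
    refine ⟨F.h a - i, by omega, s', hs', ?_⟩
    rw [← h3]
    have h4 := F.q_adj a ha (F.h a - (i + 1)) (by omega)
    rw [show F.h a - (i + 1) + 1 = F.h a - i by omega] at h4
    exact h4.symm
  obtain ⟨s0, hs0, s0', hs0', hadj0⟩ := h1
  have h2 : ∃ t, (∃ s ≤ F.h a, ∃ s' ≤ F.h b, G.Adj (F.q a s) (F.q b s') ∧ s + s' = t) :=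
    ⟨_, s0, hs0, s0', hs0', hadj0, rfl⟩
  set P : ℕ → Prop := fun t =>
    ∃ s ≤ F.h a, ∃ s' ≤ F.h b, G.Adj (F.q a s) (F.q b s') ∧ s + s' = t with hP
  have hbound : ∀ t, P t → t ≤ F.h a + F.h b := by
    rintro t ⟨s, hs, s', hs', -, he⟩
    omega
  refine ⟨Nat.findGreatest P (F.h a + F.h b), ?_, ?_⟩
  · have := Nat.findGreatest_spec (P := P) (hbound _ h2.choose_spec) h2.choose_spec
    exact this
  · intro s hs s' hs' hadj
    exact Nat.le_findGreatest (by omega) ⟨s, hs, s', hs', hadj, rfl⟩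

/-- The induced cycle through two legs. -/
lemma hole_two {a b t : ℕ} (hab : a < b) (hb : b < M) (ht : F.IsT a b t) :
    ∃ N, HasInducedCycle G N ∧ N + t + F.r a = F.h a + F.h b + 3 + F.l b := by
  have ha : a < M := by omega
  have hsep := F.sep a b hab hb
  set W : Set V := {y | ∃ x, (x = a ∨ x = b) ∧ ∃ s ≤ F.h x, y = F.q x s} with hW
  have hwa : F.w a ∈ W := ⟨a, Or.inl rfl, _, le_rfl, rfl⟩
  have hwb : F.w b ∈ W := ⟨b, Or.inr rfl, _, le_rfl, rfl⟩
  obtain ⟨⟨s, hs, s', hs', hadj, he⟩, hmax⟩ := ht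
  -- upper bound
  obtain ⟨P1, hP1⟩ := F.walk_leg W ha hs le_rfl (fun i _ h2 => ⟨a, Or.inl rfl, i, h2, rfl⟩)
  obtain ⟨P2, hP2⟩ := F.walk_leg W hb hs' le_rfl (fun i _ h2 => ⟨b, Or.inr rfl, i, h2, rfl⟩)
  have hadjW : (rg G W).Adj (F.q b s') (F.q a s) :=
    ⟨hadj.symm, ⟨b, Or.inr rfl, s', hs', rfl⟩, ⟨a, Or.inl rfl, s, hs, rfl⟩⟩
  have hup := SimpleGraph.dist_le ((P2.reverse.concat hadjW).append P1)
  have hreach : (rg G W).Reachable (F.w b) (F.w a) := ⟨(P2.reverse.concat hadjW).append P1⟩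
  rw [Walk.length_append, Walk.length_concat, Walk.length_reverse, hP1, hP2] at hup
  change (rg G W).dist (F.w b) (F.w a) ≤ _ at hup
  -- lower bound
  obtain ⟨f, h0, hd, hfW, hfadj, -, -⟩ := exists_shortest G W hwb hreach
  obtain ⟨i, hi, h1, h2⟩ := exists_crossing {y | ∃ s ≤ F.h a, y = F.q a s} f _ (by
      rw [h0]; rintro ⟨s, hs, heq⟩
      exact F.w_ne hb ha (by omega) hs heq) (by rw [hd]; exact ⟨_, le_rfl, rfl⟩)
  obtain ⟨x, hx, s1, hs1, hfi⟩ := hfW i hi.le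
  have hxb : x = b := by
    rcases hx with hx | hx
    · exact absurd ⟨s1, by rw [← hx]; exact hs1, by rw [← hx]; exact hfi⟩ h1
    · exact hx
  subst hxb
  obtain ⟨s2, hs2, hfi2⟩ := h2
  have h3 := hfadj i hi
  rw [hfi, hfi2] at h3
  have h4 := hmax s2 hs2 s1 hs1 h3.symm
  have h5 := F.lip_seq f _ hfadj i hi.le
  have h6 := F.lip_seq' f _ hfadj (i + 1) hi
  rw [h0, hfi, F.g_q x hb s1 hs1, show F.w x = F.q x (F.h x) from rfl,
    F.g_q x hb _ le_rfl] at h5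
  rw [hd, hfi2, F.g_q a ha s2 hs2, show F.w a = F.q a (F.h a) from rfl,
    F.g_q a ha _ le_rfl] at h6
  change F.h a ≤ s2 + ((rg G W).dist (F.w x) (F.w a) - (i + 1)) at h6
  refine ⟨_, F.hole_of_dist hab hb W ?_ hwb hreach, ?_⟩
  · rintro y ⟨x', hx', s3, hs3, hy⟩
    rcases hx' with rfl | rfl
    · exact ⟨x', ha, Or.inl le_rfl, s3, hs3, hy⟩
    · exact ⟨x', hb, Or.inr le_rfl, s3, hs3, hy⟩
  · omega

/-- The set used to join the tops of the legs `x`, `y` through the leg `z`. -/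
def bridge (x y z m : ℕ) : Set V :=
  {u | (∃ s, m ≤ s ∧ s ≤ F.h x ∧ u = F.q x s) ∨ (∃ s, m ≤ s ∧ s ≤ F.h y ∧ u = F.q y s) ∨
    ∃ s ≤ F.h z, u = F.q z s}

lemma bridge_dist {x y z txy txz tyz : ℕ} (hx : x < M) (hy : y < M) (hz : z < M)
    (hxy : x ≠ y) (Hxy : F.IsT x y txy) (Hxz : F.IsT x z txz) (Hyz : F.IsT y z tyz)
    (h1 : txy + 3 ≤ tyz) (h2 : tyz + 2 ≤ txz) :
    ∃ W : Set V, (∀ u ∈ W, (∃ s ≤ F.h x, u = F.q x s) ∨ (∃ s ≤ F.h y, u = F.q y s) ∨
      ∃ s ≤ F.h z, u = F.q z s) ∧ F.w x ∈ W ∧ F.w y ∈ W ∧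
      (rg G W).Reachable (F.w x) (F.w y) ∧
      F.h x + F.h y + 1 ≤ (rg G W).dist (F.w x) (F.w y) + tyz ∧
      (rg G W).dist (F.w x) (F.w y) + tyz ≤ F.h x + F.h y + 3 := by
  obtain ⟨⟨s1, hs1, s1', hs1', hadj1, he1⟩, hmax1⟩ := Hxz
  obtain ⟨⟨s2, hs2, s2', hs2', hadj2, he2⟩, hmax2⟩ := Hyz
  obtain ⟨-, hmax0⟩ := Hxy
  have l1 := F.lip _ _ hadj1
  have l1' := F.lip _ _ hadj1.symm
  have l2 := F.lip _ _ hadj2
  have l2' := F.lip _ _ hadj2.symm
  rw [F.g_q x hx s1 hs1, F.g_q z hz s1' hs1'] at l1 l1'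
  rw [F.g_q y hy s2 hs2, F.g_q z hz s2' hs2'] at l2 l2'
  set m := txy / 2 + 1 with hm
  have hm1 : m ≤ s1 := by omega
  have hm2 : m ≤ s2 := by omega
  have hss : s2' ≤ s1' := by omega
  set W := F.bridge x y z m with hW
  have hWx : ∀ s, m ≤ s → s ≤ F.h x → F.q x s ∈ W := fun s a b => Or.inl ⟨s, a, b, rfl⟩
  have hWy : ∀ s, m ≤ s → s ≤ F.h y → F.q y s ∈ W := fun s a b => Or.inr (Or.inl ⟨s, a, b, rfl⟩)
  have hWz : ∀ s, s ≤ F.h z → F.q z s ∈ W := fun s a => Or.inr (Or.inr ⟨s, a, rfl⟩)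
  obtain ⟨P1, hP1⟩ := F.walk_leg W hx hs1 le_rfl (fun i a b => hWx i (by omega) b)
  obtain ⟨P2, hP2⟩ := F.walk_leg W hy hs2 le_rfl (fun i a b => hWy i (by omega) b)
  obtain ⟨P3, hP3⟩ := F.walk_leg W hz hss hs1' (fun i a b => hWz i (by omega))
  have A1 : (rg G W).Adj (F.q x s1) (F.q z s1') := ⟨hadj1, hWx _ hm1 hs1, hWz _ hs1'⟩
  have A2 : (rg G W).Adj (F.q z s2') (F.q y s2) := ⟨hadj2.symm, hWz _ hs2', hWy _ hm2 hs2⟩
  have hwx : F.w x ∈ W := hWx _ (by omega) le_rfl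
  have hwy : F.w y ∈ W := hWy _ (by omega) le_rfl
  have hreach : (rg G W).Reachable (F.w x) (F.w y) :=
    ⟨(((P1.reverse.concat A1).append P3.reverse).concat A2).append P2⟩
  have hup := SimpleGraph.dist_le
    ((((P1.reverse.concat A1).append P3.reverse).concat A2).append P2)
  rw [Walk.length_append, Walk.length_concat, Walk.length_append, Walk.length_concat,
    Walk.length_reverse, Walk.length_reverse, hP1, hP2, hP3] at hup
  change (rg G W).dist (F.w x) (F.w y) ≤ _ at hup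
  refine ⟨W, ?_, hwx, hwy, hreach, ?_, ?_⟩
  · rintro u (⟨s, -, hs, hu⟩ | ⟨s, -, hs, hu⟩ | ⟨s, hs, hu⟩)
    · exact Or.inl ⟨s, hs, hu⟩
    · exact Or.inr (Or.inl ⟨s, hs, hu⟩)
    · exact Or.inr (Or.inr ⟨s, hs, hu⟩)
  · obtain ⟨f, h0, hd, hfW, hfadj, -, -⟩ := exists_shortest G W hwx hreach
    obtain ⟨i, hi, c1, c2⟩ := exists_crossing {u | ∃ s, m ≤ s ∧ s ≤ F.h y ∧ u = F.q y s} f _
      (by
        rw [h0]; rintro ⟨s, -, hs, heq⟩
        exact F.w_ne hx hy hxy hs heq)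
      (by rw [hd]; exact ⟨_, by omega, le_rfl, rfl⟩)
    obtain ⟨s3, hs3, hs3', hf3⟩ := c2
    have h3 := hfadj i hi
    have h5 := F.lip_seq f _ hfadj i hi.le
    have h6 := F.lip_seq' f _ hfadj (i + 1) hi
    rcases hfW i hi.le with ⟨s4, hs4, hs4', hf4⟩ | ⟨s4, hs4, hs4', hf4⟩ | ⟨s4, hs4, hf4⟩
    · rw [hf3, hf4] at h3
      have := hmax0 _ hs4' _ hs3' h3
      omega
    · exact absurd ⟨s4, hs4, hs4', hf4⟩ c1
    · rw [hf3, hf4] at h3
      have h4 := hmax2 _ hs3' _ hs4 h3.symm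
      rw [h0, hf4, F.g_q z hz s4 hs4, show F.w x = F.q x (F.h x) from rfl,
        F.g_q x hx _ le_rfl] at h5
      rw [hd, hf3, F.g_q y hy s3 hs3', show F.w y = F.q y (F.h y) from rfl,
        F.g_q y hy _ le_rfl] at h6
      change F.h y ≤ s3 + ((rg G W).dist (F.w x) (F.w y) - (i + 1)) at h6
      omega
  · omega

/-- Three legs `a < b < c`: if `b` and `c` meet before `a` and `b`. -/
lemma hole_three {a b c tab tac tbc : ℕ} (hab : a < b) (hbc : b < c) (hc : c < M)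
    (Hab : F.IsT a b tab) (Hac : F.IsT a c tac) (Hbc : F.IsT b c tbc)
    (h1 : tab + 3 ≤ tbc) (h2 : tbc + 2 ≤ tac) :
    ∃ N, HasInducedCycle G N ∧ F.h a + F.h b + 3 + F.l b ≤ N + tbc + F.r a ∧
      N + tbc + F.r a ≤ F.h a + F.h b + 5 + F.l b := by
  obtain ⟨W, hW, hwa, hwb, hreach, hlow, hup⟩ :=
    F.bridge_dist (x := a) (y := b) (z := c) (by omega) (by omega) hc (by omega) Hab Hac Hbc h1 h2
  have hsep := F.sep a b hab (by omega)
  have h3 := F.hole_of_dist hab (by omega) W (by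
    intro u hu
    rcases hW u hu with ⟨s, hs, hu⟩ | ⟨s, hs, hu⟩ | ⟨s, hs, hu⟩
    · exact ⟨a, by omega, by omega, s, hs, hu⟩
    · exact ⟨b, by omega, by omega, s, hs, hu⟩
    · exact ⟨c, by omega, by omega, s, hs, hu⟩) hwb hreach.symm
  rw [SimpleGraph.dist_comm] at h3
  exact ⟨_, h3, by omega, by omega⟩

/-- Three legs `a < b < c`: if `a` and `b` meet before `b` and `c`. -/
lemma hole_three' {a b c tab tac tbc : ℕ} (hab : a < b) (hbc : b < c) (hc : c < M)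
    (Hab : F.IsT a b tab) (Hac : F.IsT a c tac) (Hbc : F.IsT b c tbc)
    (h1 : tbc + 3 ≤ tab) (h2 : tab + 2 ≤ tac) :
    ∃ N, HasInducedCycle G N ∧ F.h b + F.h c + 3 + F.l c ≤ N + tab + F.r b ∧
      N + tab + F.r b ≤ F.h b + F.h c + 5 + F.l c := by
  obtain ⟨W, hW, hwc, hwb, hreach, hlow, hup⟩ :=
    F.bridge_dist (x := c) (y := b) (z := a) (by omega) (by omega) (by omega) (by omega)
      (IsT.symm F Hbc) (IsT.symm F Hac) (IsT.symm F Hab) h1 h2
  have hsep := F.sep b c hbc (by omega)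
  have h3 := F.hole_of_dist hbc (by omega) W (by
    intro u hu
    rcases hW u hu with ⟨s, hs, hu⟩ | ⟨s, hs, hu⟩ | ⟨s, hs, hu⟩
    · exact ⟨c, by omega, by omega, s, hs, hu⟩
    · exact ⟨b, by omega, by omega, s, hs, hu⟩
    · exact ⟨a, by omega, by omega, s, hs, hu⟩) hwc hreach
  exact ⟨_, h3, by omega, by omega⟩

end Fan

end Pool.Agent.Lib.MP_9fae2f_co
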