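import Mathlib

set_option autoImplicit false

/-! Induced cycles, and shortest paths inside a set of vertices. -/

namespace Pool.Agent.Lib.MP_9fae2f_co

open SimpleGraph

universe u

variable {V : Type u}

/-- `G` has an induced cycle of length `N`: `N ≥ 3` and the cycle graph on `N` vertices embeds as
an induced subgraph. -/
def HasInducedCycle (G : SimpleGraph V) (N : ℕ) : Prop :=
  3 ≤ N ∧ Nonempty (cycleGraph N ↪g G)

lemma cyc_adj {N : ℕ} (hN : 3 ≤ N) (i j : Fin N) (hij : i < j) :
    (cycleGraph N).Adj i j ↔ (j.val = i.val + 1 ∨ (i.val = 0 ∧ j.val = N - 1)) := by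
  rw [cycleGraph_adj', Fin.lt_def] at *
  have hi := i.isLt
  have hj := j.isLt
  rw [Fin.coe_sub_iff_lt.2 (Fin.lt_def.2 hij), Fin.coe_sub_iff_le.2 (Fin.le_def.2 hij.le)]
  omega

lemma hasInducedCycle_of_seq (G : SimpleGraph V) (N : ℕ) (hN : 3 ≤ N) (F : ℕ → V)
    (hne : ∀ i j, i < j → j < N → F i ≠ F j)
    (hadj : ∀ i j, i < j → j < N → (G.Adj (F i) (F j) ↔ (j = i + 1 ∨ (i = 0 ∧ j = N - 1)))) :
    HasInducedCycle G N := by
  refine ⟨hN, ⟨⟨⟨fun i => F i.val, ?_⟩, ?_⟩⟩⟩
  · intro i j hij
    rcases lt_trichotomy i j with h | h | h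
    · exact absurd hij (hne _ _ h j.isLt)
    · exact h
    · exact absurd hij.symm (hne _ _ h i.isLt)
  · intro i j
    change G.Adj (F i.val) (F j.val) ↔ _
    rcases lt_trichotomy i j with h | h | h
    · rw [cyc_adj hN i j h, hadj _ _ h j.isLt]
    · subst h; simp
    · rw [G.adj_comm, (cycleGraph N).adj_comm, cyc_adj hN j i h, hadj _ _ h i.isLt]

/-- Two induced paths joined at their ends form an induced cycle. -/
lemma hasInducedCycle_glue (G : SimpleGraph V) (d e : ℕ) (hde : 1 ≤ d + e) (f p : ℕ → V)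
    (hf : ∀ i < d, G.Adj (f i) (f (i + 1)))
    (hf' : ∀ i j, i + 1 < j → j ≤ d → ¬ G.Adj (f i) (f j))
    (hfi : ∀ i j, i < j → j ≤ d → f i ≠ f j)
    (hp : ∀ i < e, G.Adj (p i) (p (i + 1)))
    (hp' : ∀ i j, i + 1 < j → j ≤ e → ¬ G.Adj (p i) (p j))
    (hpi : ∀ i j, i < j → j ≤ e → p i ≠ p j)
    (hfp : ∀ i ≤ d, ∀ j ≤ e, f i ≠ p j)
    (hfpa : ∀ i ≤ d, ∀ j ≤ e, (G.Adj (f i) (p j) ↔ (i = d ∧ j = 0) ∨ (i = 0 ∧ j = e))) :
    HasInducedCycle G (d + e + 2) := by
  refine hasInducedCycle_of_seq G _ (by omega)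
    (fun i => if i ≤ d then f i else p (i - d - 1)) ?_ ?_
  · intro i j hij hj
    split_ifs with h1 h2 h2
    · exact hfi i j hij h2
    · exact hfp i h1 _ (by omega)
    · omega
    · exact hpi _ _ (by omega) (by omega)
  · intro i j hij hj
    split_ifs with h1 h2 h2
    · constructor
      · intro h
        by_contra hcon
        exact hf' i j (by omega) h2 h
      · intro h
        rcases h with h | h
        · subst h; exact hf i (by omega)
        · omega
    · rw [hfpa i h1 _ (by omega)]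
      omega
    · omega
    · constructor
      · intro h
        by_contra hcon
        exact hp' (i - d - 1) (j - d - 1) (by omega) (by omega) h
      · intro h
        rcases h with h | h
        · have := hp (i - d - 1) (by omega)
          have he : j - d - 1 = i - d - 1 + 1 := by omega
          rw [he]; exact this
        · omega

/-- The graph with the edges of `G` inside `W`. -/
def rg (G : SimpleGraph V) (W : Set V) : SimpleGraph V where
  Adj x y := G.Adj x y ∧ x ∈ W ∧ y ∈ W
  symm := ⟨fun _ _ h => ⟨h.1.symm, h.2.2, h.2.1⟩⟩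
  loopless := ⟨fun _ h => h.1.ne rfl⟩

/-- Shortest paths in a graph, as sequences. -/
lemma exists_shortest_aux (H : SimpleGraph V) {a b : V} (hr : H.Reachable a b) :
    ∃ f : ℕ → V, f 0 = a ∧ f (H.dist a b) = b ∧
      (∀ i < H.dist a b, H.Adj (f i) (f (i + 1))) ∧
      (∀ i j, i ≤ j → j ≤ H.dist a b → j - i ≤ H.dist (f i) (f j)) := by
  obtain ⟨p, hp⟩ := hr.exists_walk_length_eq_dist
  refine ⟨p.getVert, Walk.getVert_zero p, ?_, ?_, ?_⟩
  · rw [← hp]; exact Walk.getVert_length p
  · intro i hi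
    exact p.adj_getVert_succ (by omega)
  · intro i j hij hj
    have h1 : H.dist a (p.getVert i) ≤ i := by
      have := SimpleGraph.dist_le (p.take i)
      rw [Walk.take_length] at this
      omega
    have h2 : H.dist (p.getVert j) b ≤ H.dist a b - j := by
      have := SimpleGraph.dist_le (p.drop j)
      rw [Walk.drop_length] at this
      omega
    have r1 : H.Reachable a (p.getVert i) := ⟨p.take i⟩
    have r2 : H.Reachable (p.getVert j) b := ⟨p.drop j⟩
    have h3 := r1.dist_triangle_left b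
    have h4 := r2.dist_triangle_right (p.getVert i)
    omega

/-- Shortest paths inside a set of vertices. -/
lemma exists_shortest (G : SimpleGraph V) (W : Set V) {a b : V} (ha : a ∈ W)
    (hr : (rg G W).Reachable a b) :
    ∃ f : ℕ → V, f 0 = a ∧ f ((rg G W).dist a b) = b ∧
      (∀ i ≤ (rg G W).dist a b, f i ∈ W) ∧
      (∀ i < (rg G W).dist a b, G.Adj (f i) (f (i + 1))) ∧
      (∀ i j, i + 1 < j → j ≤ (rg G W).dist a b → ¬ G.Adj (f i) (f j)) ∧
      (∀ i j, i < j → j ≤ (rg G W).dist a b → f i ≠ f j) := by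
  obtain ⟨f, h0, hd, hadj, hle⟩ := exists_shortest_aux _ hr
  have hW : ∀ i ≤ (rg G W).dist a b, f i ∈ W := by
    intro i hi
    rcases Nat.eq_zero_or_pos i with h | h
    · subst h; rw [h0]; exact ha
    · obtain ⟨k, rfl⟩ : ∃ k, i = k + 1 := ⟨i - 1, by omega⟩
      exact (hadj k (by omega)).2.2
  refine ⟨f, h0, hd, hW, ?_, ?_, ?_⟩
  · intro i hi
    exact (hadj i hi).1
  · intro i j hij hj hadj
    have h1 := hle i j (by omega) hj
    have h2 : (rg G W).Adj (f i) (f j) := ⟨hadj, hW i (by omega), hW j hj⟩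
    have h3 := SimpleGraph.dist_eq_one_iff_adj.2 h2
    omega
  · intro i j hij hj heq
    have h1 := hle i j (by omega) hj
    rw [heq, SimpleGraph.dist_self] at h1
    omega

/-- The first entry of a sequence into a set. -/
lemma exists_crossing (B : Set V) (f : ℕ → V) : ∀ d : ℕ, f 0 ∉ B → f d ∈ B →
    ∃ i < d, f i ∉ B ∧ f (i + 1) ∈ B := by
  intro d
  induction d with
  | zero => intro h0 h1; exact absurd h1 h0
  | succ d ih =>
    intro h0 h1
    by_cases h : f d ∈ B
    · obtain ⟨i, hi, h2⟩ := ih h0 h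
      exact ⟨i, by omega, h2⟩
    · exact ⟨d, by omega, h, h1⟩

end Pool.Agent.Lib.MP_9fae2f_co
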